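import Mathlib

namespace Pool.Agent.Results.MP_295a7b_co.Q1Classification

open Finset

/-- The thirteen blocks of the pattern on seven classes: the two Fano planes
`{i, i+1, i+3}` and `{i, i+2, i+3}` modulo 7, with the block `{0, 1, 3}` removed. -/
def blocks : Finset (Fin 7 × Fin 7 × Fin 7) :=
  {(1,2,4),(2,3,5),(3,4,6),(0,4,5),(1,5,6),(0,2,6),(0,2,3),(1,3,4),(2,4,5),(3,5,6),(0,4,6),
    (0,1,5),(1,2,6)}

/-- The triples inside `S` whose class pattern under `c` is a block. -/
def T {V : Type} [DecidableEq V] (c : V → Fin 7) (S : Finset V) : Finset (Finset V) :=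
  blocks.biUnion fun b =>
    ((S.filter (fun v => c v = b.1)) ×ˢ ((S.filter (fun v => c v = b.2.1)) ×ˢ
      (S.filter (fun v => c v = b.2.2)))).image fun p => {p.1, p.2.1, p.2.2}

lemma blocks_ne : ∀ b ∈ blocks, b.1 ≠ b.2.1 ∧ b.1 ≠ b.2.2 ∧ b.2.1 ≠ b.2.2 := by
  decide +kernel

lemma blocks_inj : ∀ b ∈ blocks, ∀ b' ∈ blocks,
    ({b.1, b.2.1, b.2.2} : Finset (Fin 7)) = {b'.1, b'.2.1, b'.2.2} → b = b' := by
  decide +kernel

section
variable {V : Type} [DecidableEq V] (c : V → Fin 7)

lemma mem_T {S : Finset V} {e : Finset V} :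
    e ∈ T c S ↔ ∃ b ∈ blocks, ∃ x y z, x ∈ S ∧ c x = b.1 ∧ y ∈ S ∧ c y = b.2.1 ∧
      z ∈ S ∧ c z = b.2.2 ∧ e = {x, y, z} := by
  unfold T
  simp only [mem_biUnion, mem_image, mem_product, mem_filter, Prod.exists]
  constructor
  · rintro ⟨b1, b2, b3, hb, x, y, z, ⟨⟨hx, hcx⟩, ⟨hy, hcy⟩, hz, hcz⟩, rfl⟩
    exact ⟨b1, b2, b3, hb, x, y, z, hx, hcx, hy, hcy, hz, hcz, rfl⟩
  · rintro ⟨b1, b2, b3, hb, x, y, z, hx, hcx, hy, hcy, hz, hcz, rfl⟩
    exact ⟨b1, b2, b3, hb, x, y, z, ⟨⟨hx, hcx⟩, ⟨hy, hcy⟩, hz, hcz⟩, rfl⟩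

lemma card_of_mem_T {S : Finset V} {e : Finset V} (he : e ∈ T c S) : e.card = 3 := by
  obtain ⟨b, hb, x, y, z, -, hx, -, hy, -, hz, rfl⟩ := (mem_T c).1 he
  obtain ⟨h1, h2, h3⟩ := blocks_ne b hb
  rw [card_eq_three]
  refine ⟨x, y, z, ?_, ?_, ?_, rfl⟩
  · rintro rfl; exact h1 (hx.symm.trans hy)
  · rintro rfl; exact h2 (hx.symm.trans hz)
  · rintro rfl; exact h3 (hy.symm.trans hz)

lemma mem_T_of_subset {S S' : Finset V} {e : Finset V} (he : e ∈ T c S) (hs : e ⊆ S') :
    e ∈ T c S' := by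
  obtain ⟨b, hb, x, y, z, -, hx, -, hy, -, hz, rfl⟩ := (mem_T c).1 he
  refine (mem_T c).2 ⟨b, hb, x, y, z, hs ?_, hx, hs ?_, hy, hs ?_, hz, rfl⟩ <;> simp

lemma card_T (S : Finset V) :
    (T c S).card = ∑ b ∈ blocks, (S.filter (fun v => c v = b.1)).card *
      ((S.filter (fun v => c v = b.2.1)).card * (S.filter (fun v => c v = b.2.2)).card) := by
  unfold T
  rw [card_biUnion]
  · refine sum_congr rfl fun b hb => ?_
    rw [card_image_of_injOn, card_product, card_product]
    obtain ⟨h1, h2, h3⟩ := blocks_ne b hb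
    rintro ⟨x, y, z⟩ hp ⟨x', y', z'⟩ hq h
    simp only [coe_product, Set.mem_prod, mem_coe, mem_filter] at hp hq
    obtain ⟨⟨-, hx⟩, ⟨-, hy⟩, -, hz⟩ := hp
    obtain ⟨⟨-, hx'⟩, ⟨-, hy'⟩, -, hz'⟩ := hq
    simp only at h
    have ex : x ∈ ({x', y', z'} : Finset V) := by rw [← h]; simp
    have ey : y ∈ ({x', y', z'} : Finset V) := by rw [← h]; simp
    have ez : z ∈ ({x', y', z'} : Finset V) := by rw [← h]; simp
    simp only [mem_insert, mem_singleton] at ex ey ez
    have e1 : x = x' := by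
      rcases ex with r | r | r
      · exact r
      · subst r; exact absurd (hx.symm.trans hy') h1
      · subst r; exact absurd (hx.symm.trans hz') h2
    have e2 : y = y' := by
      rcases ey with r | r | r
      · subst r; exact absurd (hx'.symm.trans hy) h1
      · exact r
      · subst r; exact absurd (hy.symm.trans hz') h3
    have e3 : z = z' := by
      rcases ez with r | r | r
      · subst r; exact absurd (hx'.symm.trans hz) h2
      · subst r; exact absurd (hy'.symm.trans hz) h3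
      · exact r
    rw [e1, e2, e3]
  · intro b hb b' hb' hne
    rw [Function.onFun, disjoint_left]
    intro e he he'
    apply hne
    apply blocks_inj b hb b' hb'
    simp only [mem_image, mem_product, mem_filter, Prod.exists] at he he'
    obtain ⟨x, y, z, ⟨⟨-, hx⟩, ⟨-, hy⟩, -, hz⟩, rfl⟩ := he
    obtain ⟨x', y', z', ⟨⟨-, hx'⟩, ⟨-, hy'⟩, -, hz'⟩, h⟩ := he'
    have := congrArg (fun t => Finset.image c t) h
    simp only [image_insert, image_singleton, hx, hy, hz, hx', hy', hz'] at this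
    exact this.symm

end

/-- The pattern polynomial. -/
def poly (a b c d e f g : ℕ) : ℕ :=
  b*(c*e) + c*(d*f) + d*(e*g) + a*(e*f) + b*(f*g) + a*(c*g) + a*(c*d) + b*(d*e) + c*(e*f) +
    d*(f*g) + a*(e*g) + a*(b*f) + b*(c*g)

lemma sum_blocks (s : Fin 7 → ℕ) :
    ∑ b ∈ blocks, s b.1 * (s b.2.1 * s b.2.2) =
      poly (s 0) (s 1) (s 2) (s 3) (s 4) (s 5) (s 6) := by
  unfold blocks poly
  rw [sum_insert (by decide), sum_insert (by decide), sum_insert (by decide),
    sum_insert (by decide), sum_insert (by decide), sum_insert (by decide),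
    sum_insert (by decide), sum_insert (by decide), sum_insert (by decide),
    sum_insert (by decide), sum_insert (by decide), sum_insert (by decide), sum_singleton]
  ring

/-- Exhaustive check over all ways to split 9 points among the seven classes. -/
def chk : Bool :=
  (List.range 10).all fun a => (List.range (10 - a)).all fun b =>
    (List.range (10 - a - b)).all fun c => (List.range (10 - a - b - c)).all fun d =>
      (List.range (10 - a - b - c - d)).all fun e =>
        (List.range (10 - a - b - c - d - e)).all fun f =>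
          Nat.ble (poly a b c d e f (9 - a - b - c - d - e - f)) 27

lemma chk_true : chk = true := by decide +kernel

lemma poly_le (a b c d e f g : ℕ) (h : a + b + c + d + e + f + g = 9) :
    poly a b c d e f g ≤ 27 := by
  have H := chk_true
  unfold chk at H
  simp only [List.all_eq_true, List.mem_range, Nat.ble_eq] at H
  have := H a (by omega) b (by omega) c (by omega) d (by omega) e (by omega) f (by omega)
  have hg : 9 - a - b - c - d - e - f = g := by omega
  rwa [hg] at this

/-- The class sizes used for `3 n` vertices, written with `k = n / 6` and `s = n % 6`. -/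
def wt (n : ℕ) : Fin 7 → ℕ :=
  let k := n / 6
  match n % 6 with
  | 0 => ![2*k, 2*k, 3*k, 2*k, 3*k, 3*k, 3*k]
  | 1 => ![2*k, 2*k+1, 3*k+1, 2*k, 3*k+1, 3*k, 3*k]
  | 2 => ![2*k+1, 2*k+1, 3*k+1, 2*k+1, 3*k+1, 3*k+1, 3*k]
  | 3 => ![2*k+2, 2*k+1, 3*k+1, 2*k+1, 3*k+2, 3*k+1, 3*k+1]
  | 4 => ![2*k+1, 2*k+1, 3*k+2, 2*k+2, 3*k+2, 3*k+2, 3*k+2]
  | _ => ![2*k+2, 2*k+2, 3*k+3, 2*k+2, 3*k+2, 3*k+2, 3*k+2]

lemma wt_spec (n : ℕ) (hn : 4 ≤ n) :
    ∑ i, wt n i = 3 * n ∧
      n ^ 3 + 1 ≤ poly (wt n 0) (wt n 1) (wt n 2) (wt n 3) (wt n 4) (wt n 5) (wt n 6) := by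
  have hdiv := Nat.div_add_mod n 6
  have hlt := Nat.mod_lt n (show 0 < 6 by norm_num)
  unfold wt
  generalize hk : n / 6 = k at hdiv
  generalize hs : n % 6 = s at hdiv hlt
  interval_cases s
  · obtain ⟨j, rfl⟩ : ∃ j, k = j + 1 := ⟨k - 1, by omega⟩
    subst hdiv
    constructor
    · simp [Fin.sum_univ_succ]; ring
    · simp only [poly]
      simp
      ring_nf
      nlinarith [sq_nonneg j, pow_nonneg (Nat.zero_le j) 3, Nat.zero_le j]
  · obtain ⟨j, rfl⟩ : ∃ j, k = j + 1 := ⟨k - 1, by omega⟩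
    subst hdiv
    constructor
    · simp [Fin.sum_univ_succ]; ring
    · simp only [poly]
      simp
      ring_nf
      nlinarith [sq_nonneg j, pow_nonneg (Nat.zero_le j) 3, Nat.zero_le j]
  · obtain ⟨j, rfl⟩ : ∃ j, k = j + 1 := ⟨k - 1, by omega⟩
    subst hdiv
    constructor
    · simp [Fin.sum_univ_succ]; ring
    · simp only [poly]
      simp
      ring_nf
      nlinarith [sq_nonneg j, pow_nonneg (Nat.zero_le j) 3, Nat.zero_le j]
  · obtain ⟨j, rfl⟩ : ∃ j, k = j + 1 := ⟨k - 1, by omega⟩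
    subst hdiv
    constructor
    · simp [Fin.sum_univ_succ]; ring
    · simp only [poly]
      simp
      ring_nf
      nlinarith [sq_nonneg j, pow_nonneg (Nat.zero_le j) 3, Nat.zero_le j]
  · subst hdiv
    constructor
    · simp [Fin.sum_univ_succ]; ring
    · simp only [poly]
      simp
      ring_nf
      nlinarith [sq_nonneg k, pow_nonneg (Nat.zero_le k) 3, Nat.zero_le k]
  · subst hdiv
    constructor
    · simp [Fin.sum_univ_succ]; ring
    · simp only [poly]
      simp
      ring_nf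
      nlinarith [sq_nonneg k, pow_nonneg (Nat.zero_le k) 3, Nat.zero_le k]

/-- For every `n ≥ 4` there are `n ^ 3 + 1` triples on `3 n` points with every nine points
containing at most 27 of them. -/
lemma exists_graph (n : ℕ) (hn : 4 ≤ n) :
    ∃ E : Finset (Finset (Fin (3 * n))), (∀ e ∈ E, e.card = 3) ∧ E.card = n ^ 3 + 1 ∧
      ∀ S : Finset (Fin (3 * n)), S.card = 9 → (E.filter (fun e => e ⊆ S)).card ≤ 27 := by
  obtain ⟨hsum, hcard⟩ := wt_spec n hn
  have hc : Fintype.card (Σ i : Fin 7, Fin (wt n i)) = 3 * n := by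
    rw [Fintype.card_sigma]; simpa using hsum
  let φ : (Σ i : Fin 7, Fin (wt n i)) ≃ Fin (3 * n) := Fintype.equivFinOfCardEq hc
  let c : Fin (3 * n) → Fin 7 := fun v => (φ.symm v).1
  have hfib : ∀ i, ((univ : Finset (Fin (3 * n))).filter (fun v => c v = i)).card = wt n i := by
    intro i
    have h1 : ((univ : Finset (Fin (3 * n))).filter (fun v => c v = i)) =
        (univ : Finset (Fin (wt n i))).image (fun x => φ ⟨i, x⟩) := by
      ext v
      simp only [mem_filter, mem_univ, true_and, mem_image]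
      constructor
      · intro h
        subst h
        exact ⟨(φ.symm v).2, φ.apply_symm_apply v⟩
      · rintro ⟨x, rfl⟩
        simp [c]
    rw [h1, card_image_of_injective, card_univ, Fintype.card_fin]
    intro x y h
    have := φ.injective h
    simpa using this
  have hT : n ^ 3 + 1 ≤ (T c univ).card := by
    rw [card_T]
    simp only [hfib]
    rw [sum_blocks]
    exact hcard
  obtain ⟨E, hE, hEc⟩ := exists_subset_card_eq hT
  refine ⟨E, fun e he => card_of_mem_T c (hE he), hEc, fun S hS => ?_⟩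
  have hsub : E.filter (fun e => e ⊆ S) ⊆ T c S := by
    intro e he
    rw [mem_filter] at he
    exact mem_T_of_subset c (hE he.1) he.2
  refine (card_le_card hsub).trans ?_
  rw [card_T, sum_blocks (fun i => (S.filter (fun v => c v = i)).card)]
  apply poly_le
  have := card_eq_sum_card_fiberwise (f := c) (s := S) (t := univ) (fun _ _ => mem_univ _)
  rw [hS] at this
  rw [this, Fin.sum_univ_seven]

/-- Complete answer to Q1, for each `n ≥ 3` separately. -/
theorem result (n : ℕ) (hn : 3 ≤ n) :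
    (∀ E : Finset (Finset (Fin (3 * n))), (∀ e ∈ E, e.card = 3) → E.card = n ^ 3 + 1 →
      ∃ S : Finset (Fin (3 * n)), S.card = 9 ∧ 28 ≤ (E.filter (fun e => e ⊆ S)).card) ↔
    n = 3 := by
  constructor
  · intro h
    by_contra hne
    obtain ⟨E, h3, hc, hS⟩ := exists_graph n (by omega)
    obtain ⟨S, hS9, h28⟩ := h E h3 hc
    have := hS S hS9
    omega
  · rintro rfl E h3 hc
    refine ⟨univ, by rw [card_univ, Fintype.card_fin], ?_⟩
    rw [filter_true_of_mem (fun e _ => subset_univ e), hc]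
    norm_num

end Pool.Agent.Results.MP_295a7b_co.Q1Classification
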