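import Mathlib
import Pool.Agent.Results.MP_295a7b_co.Q1Classification

namespace Pool.Agent.Results.MP_295a7b_co.Q2AllN

open Finset

lemma transversal_card {V : Type} [DecidableEq V] {A B C : Finset V}
    (hA : A.card = 3) (hB : B.card = 3) (hC : C.card = 3)
    (hAB : Disjoint A B) (hAC : Disjoint A C) (hBC : Disjoint B C) :
    ((A ×ˢ (B ×ˢ C)).image (fun p => ({p.1, p.2.1, p.2.2} : Finset V))).card = 27 := by
  rw [card_image_of_injOn, card_product, card_product, hA, hB, hC]
  rintro ⟨x, y, z⟩ hp ⟨x', y', z'⟩ hq h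
  simp only [coe_product, Set.mem_prod, mem_coe] at hp hq
  obtain ⟨hx, hy, hz⟩ := hp
  obtain ⟨hx', hy', hz'⟩ := hq
  simp only at h
  have ex : x ∈ ({x', y', z'} : Finset V) := by rw [← h]; simp
  have ey : y ∈ ({x', y', z'} : Finset V) := by rw [← h]; simp
  have ez : z ∈ ({x', y', z'} : Finset V) := by rw [← h]; simp
  simp only [mem_insert, mem_singleton] at ex ey ez
  have dAB := disjoint_left.1 hAB
  have dAC := disjoint_left.1 hAC
  have dBC := disjoint_left.1 hBC
  have e1 : x = x' := by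
    rcases ex with r | r | r
    · exact r
    · subst r; exact absurd hy' (dAB hx)
    · subst r; exact absurd hz' (dAC hx)
  have e2 : y = y' := by
    rcases ey with r | r | r
    · subst r; exact absurd hy (dAB hx')
    · exact r
    · subst r; exact absurd hz' (dBC hy)
  have e3 : z = z' := by
    rcases ez with r | r | r
    · subst r; exact absurd hz (dAC hx')
    · subst r; exact absurd hz (dBC hy')
    · exact r
  rw [e1, e2, e3]

/-- Complete answer to Q2: the assertion fails for every `n ≥ 3`. -/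
theorem result (n : ℕ) (hn : 3 ≤ n) :
    ∃ E : Finset (Finset (Fin (3 * n))), (∀ e ∈ E, e.card = 3) ∧ E.card = n ^ 3 + 1 ∧
      ¬ ∃ A B C : Finset (Fin (3 * n)), A.card = 3 ∧ B.card = 3 ∧ C.card = 3 ∧
        Disjoint A B ∧ Disjoint A C ∧ Disjoint B C ∧
        (∀ a ∈ A, ∀ b ∈ B, ∀ c ∈ C, ({a, b, c} : Finset (Fin (3 * n))) ∈ E) ∧
        ∃ e ∈ E, e ⊆ A ∪ B ∪ C ∧
          ∀ a ∈ A, ∀ b ∈ B, ∀ c ∈ C, e ≠ ({a, b, c} : Finset (Fin (3 * n))) := by
  rcases Nat.lt_or_ge n 4 with h4 | h4
  · obtain rfl : n = 3 := by omega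
    have h35 : 3 ^ 3 + 1 ≤ (powersetCard 3 ((univ : Finset (Fin (3 * 3))).filter
        (fun v => v.val < 7))).card := by
      rw [card_powersetCard]
      decide +kernel
    obtain ⟨E, hE, hEc⟩ := exists_subset_card_eq h35
    refine ⟨E, fun e he => (mem_powersetCard.1 (hE he)).2, hEc, ?_⟩
    rintro ⟨A, B, C, hA, hB, hC, hAB, hAC, hBC, hall, -⟩
    have hS : (A ∪ B ∪ C).card = 9 := by
      rw [card_union_of_disjoint, card_union_of_disjoint hAB, hA, hB, hC]
      rw [disjoint_union_left]
      exact ⟨hAC, hBC⟩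
    have hU : A ∪ B ∪ C = univ := by
      rw [← card_eq_iff_eq_univ, hS, Fintype.card_fin]
    obtain ⟨a, ha⟩ : A.Nonempty := card_pos.1 (by omega)
    obtain ⟨b, hb⟩ : B.Nonempty := card_pos.1 (by omega)
    obtain ⟨c, hc⟩ : C.Nonempty := card_pos.1 (by omega)
    have key : ∀ e ∈ E, ∀ v ∈ e, v.val < 7 := by
      intro e he v hv
      have := (mem_powersetCard.1 (hE he)).1 hv
      simpa using this
    have h8 : (8 : Fin (3 * 3)) ∈ A ∪ B ∪ C := by rw [hU]; exact mem_univ _
    rw [mem_union, mem_union] at h8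
    have h8v : ¬ ((8 : Fin (3 * 3)).val < 7) := by decide
    rcases h8 with (h | h) | h
    · exact h8v (key _ (hall _ h b hb c hc) 8 (by simp))
    · exact h8v (key _ (hall a ha _ h c hc) 8 (by simp))
    · exact h8v (key _ (hall a ha b hb _ h) 8 (by simp))
  · obtain ⟨E, h3, hc, hS⟩ := Q1Classification.exists_graph n h4
    refine ⟨E, h3, hc, ?_⟩
    rintro ⟨A, B, C, hA, hB, hC, hAB, hAC, hBC, hall, e, heE, heS, hne⟩
    have hS9 : (A ∪ B ∪ C).card = 9 := by
      rw [card_union_of_disjoint, card_union_of_disjoint hAB, hA, hB, hC]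
      rw [disjoint_union_left]
      exact ⟨hAC, hBC⟩
    have h27 := hS _ hS9
    have hT := transversal_card hA hB hC hAB hAC hBC
    have hnot : e ∉ (A ×ˢ (B ×ˢ C)).image
        (fun p => ({p.1, p.2.1, p.2.2} : Finset (Fin (3 * n)))) := by
      intro h
      simp only [mem_image, mem_product, Prod.exists] at h
      obtain ⟨x, y, z, ⟨hx, hy, hz⟩, h⟩ := h
      exact hne x hx y hy z hz h.symm
    have hsub : insert e ((A ×ˢ (B ×ˢ C)).image
        (fun p => ({p.1, p.2.1, p.2.2} : Finset (Fin (3 * n))))) ⊆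
        E.filter (fun e => e ⊆ A ∪ B ∪ C) := by
      intro f hf
      rw [mem_insert] at hf
      rw [mem_filter]
      rcases hf with rfl | hf
      · exact ⟨heE, heS⟩
      · simp only [mem_image, mem_product, Prod.exists] at hf
        obtain ⟨x, y, z, ⟨hx, hy, hz⟩, rfl⟩ := hf
        refine ⟨hall x hx y hy z hz, ?_⟩
        intro v hv
        simp only [mem_insert, mem_singleton] at hv
        simp only [mem_union]
        rcases hv with rfl | rfl | rfl
        · exact Or.inl (Or.inl hx)
        · exact Or.inl (Or.inr hy)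
        · exact Or.inr hz
    have := card_le_card hsub
    rw [card_insert_of_notMem hnot, hT] at this
    omega

end Pool.Agent.Results.MP_295a7b_co.Q2AllN
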